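import Mathlib

set_option autoImplicit false

/-!
The modal algebras of finite direct products of the frames `(α, ≤)` and `(α, <)`, for nonzero
ordinals `α`, are locally finite, and the logics of these products have the finite model property.
-/

namespace Pool.Agent.Results.MP_d97c10_lc.OrdinalProducts

universe u

variable {W : Type u}

/-- The operator `◇` of the modal algebra of the frame `(W, R)`. -/
def dia (R : W → W → Prop) (X : Set W) : Set W := {w | ∃ v ∈ X, R w v}

/-- `A` is a subalgebra of the modal algebra of `(W, R)`. -/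
structure IsSubalgebra (R : W → W → Prop) (A : Set (Set W)) : Prop where
  empty : ∅ ∈ A
  compl : ∀ X ∈ A, Xᶜ ∈ A
  union : ∀ X ∈ A, ∀ Y ∈ A, X ∪ Y ∈ A
  dia : ∀ X ∈ A, dia R X ∈ A

/-- The subalgebra generated by `G`. -/
def generated (R : W → W → Prop) (G : Set (Set W)) : Set (Set W) :=
  ⋂₀ {A | IsSubalgebra R A ∧ G ⊆ A}

/-- The modal algebra of `(W, R)` is locally finite: finitely generated subalgebras are finite. -/
def LocallyFiniteAlg (R : W → W → Prop) : Prop :=
  ∀ G : Set (Set W), G.Finite → (generated R G).Finite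

/-- Unimodal formulas. -/
inductive Form : Type
  | var (n : ℕ)
  | bot
  | imp (φ ψ : Form)
  | dia (φ : Form)

/-- The truth set of a formula under a valuation. -/
def truth (R : W → W → Prop) (V : ℕ → Set W) : Form → Set W
  | .var n => V n
  | .bot => ∅
  | .imp φ ψ => (truth R V φ)ᶜ ∪ truth R V ψ
  | .dia φ => dia R (truth R V φ)

/-- `φ` is valid in the frame `(W, R)`, that is, `φ ∈ Log (W, R)`. -/
def Valid (R : W → W → Prop) (φ : Form) : Prop := ∀ V, truth R V φ = Set.univ

/-- `Log (W, R)` has the finite model property: each formula not in it is refuted in a finite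
(nonempty) frame in which every formula of `Log (W, R)` is valid. -/
def LogHasFMP (R : W → W → Prop) : Prop :=
  ∀ φ, ¬ Valid R φ → ∃ (n : ℕ) (R' : Fin n → Fin n → Prop), 0 < n ∧
    (∀ ψ, Valid R ψ → Valid R' ψ) ∧ ¬ Valid R' φ

/-- The direct product of the frames `(α i, ≤)`; the ordinal `α i` is the set of smaller
ordinals. -/
def prodLE {k : ℕ} (α : Fin k → Ordinal.{u}) (x y : (i : Fin k) → Set.Iio (α i)) : Prop :=
  ∀ i, x i ≤ y i

/-- The direct product of the frames `(α i, <)`. -/
def prodLT {k : ℕ} (α : Fin k → Ordinal.{u}) (x y : (i : Fin k) → Set.Iio (α i)) : Prop :=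
  ∀ i, x i < y i

/-! ### Bisimilarity -/

section Bisim

variable {K : Type*} (R : W → W → Prop) (c : W → K)

/-- `S` is a bisimulation of `(W, R)` respecting the colouring `c`. -/
structure IsBisim (S : W → W → Prop) : Prop where
  symm : ∀ x y, S x y → S y x
  col : ∀ x y, S x y → c x = c y
  forth : ∀ x y, S x y → ∀ x', R x x' → ∃ y', R y y' ∧ S x' y'

/-- Bisimilarity. -/
def Bisimilar (x y : W) : Prop := ∃ S, IsBisim R c S ∧ S x y

theorem bisimilar_refl (x : W) : Bisimilar R c x x :=
  ⟨Eq, ⟨fun _ _ h => h.symm, fun _ _ h => congrArg c h, fun x y h x' hx => by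
    subst h; exact ⟨x', hx, rfl⟩⟩, rfl⟩

variable {R c}

theorem Bisimilar.symm {x y : W} (h : Bisimilar R c x y) : Bisimilar R c y x := by
  obtain ⟨S, hS, hxy⟩ := h
  exact ⟨S, hS, hS.symm _ _ hxy⟩

theorem Bisimilar.trans {x y z : W} (h1 : Bisimilar R c x y) (h2 : Bisimilar R c y z) :
    Bisimilar R c x z := by
  obtain ⟨S, hS, hxy⟩ := h1
  obtain ⟨T, hT, hyz⟩ := h2
  refine ⟨fun a b => ∃ m, (S a m ∧ T m b) ∨ (T a m ∧ S m b), ⟨?_, ?_, ?_⟩,
    ⟨y, Or.inl ⟨hxy, hyz⟩⟩⟩
  · rintro a b ⟨m, h | h⟩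
    · exact ⟨m, Or.inr ⟨hT.symm _ _ h.2, hS.symm _ _ h.1⟩⟩
    · exact ⟨m, Or.inl ⟨hS.symm _ _ h.2, hT.symm _ _ h.1⟩⟩
  · rintro a b ⟨m, h | h⟩
    · exact (hS.col _ _ h.1).trans (hT.col _ _ h.2)
    · exact (hT.col _ _ h.1).trans (hS.col _ _ h.2)
  · rintro a b ⟨m, h | h⟩ a' ha'
    · obtain ⟨m', hm', h1⟩ := hS.forth _ _ h.1 a' ha'
      obtain ⟨b', hb', h2⟩ := hT.forth _ _ h.2 m' hm'
      exact ⟨b', hb', m', Or.inl ⟨h1, h2⟩⟩
    · obtain ⟨m', hm', h1⟩ := hT.forth _ _ h.1 a' ha'
      obtain ⟨b', hb', h2⟩ := hS.forth _ _ h.2 m' hm'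
      exact ⟨b', hb', m', Or.inr ⟨h1, h2⟩⟩

theorem Bisimilar.col {x y : W} (h : Bisimilar R c x y) : c x = c y := by
  obtain ⟨S, hS, hxy⟩ := h
  exact hS.col _ _ hxy

theorem Bisimilar.forth {x y : W} (h : Bisimilar R c x y) {x' : W} (hx : R x x') :
    ∃ y', R y y' ∧ Bisimilar R c x' y' := by
  obtain ⟨S, hS, hxy⟩ := h
  obtain ⟨y', hy', h'⟩ := hS.forth _ _ hxy x' hx
  exact ⟨y', hy', S, hS, h'⟩

variable (R c)

/-- Bisimilarity as an equivalence relation. -/
def bisimSetoid : Setoid W where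
  r := Bisimilar R c
  iseqv := ⟨bisimilar_refl R c, fun h => h.symm, fun h1 h2 => h1.trans h2⟩

/-- The bisimilarity type of a point. -/
def ty (x : W) : Quotient (bisimSetoid R c) := Quotient.mk _ x

theorem ty_eq {x y : W} : ty R c x = ty R c y ↔ Bisimilar R c x y :=
  Quotient.eq (r := bisimSetoid R c)

end Bisim

/-! ### The main lemma -/

/-- If the set `W` is well-quasi-ordered by `≤`, `R` is contained in `≤`, and `x ≤ y` implies
`R(y) ⊆ R(x)`, then, for each finite colouring, there are finitely many bisimilarity types. -/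
theorem finite_types [Preorder W] [WellQuasiOrderedLE W] (R : W → W → Prop)
    (ha : ∀ x y z, x ≤ y → R y z → R x z) (hb : ∀ x y, R x y → x ≤ y)
    {K : Type*} [Finite K] (c : W → K) : Finite (Quotient (bisimSetoid R c)) := by
  classical
  -- good points
  let Good : Set W := {x | (ty R c '' Set.Ici x).Finite}
  have hup : ∀ x y, x ∈ Good → x ≤ y → y ∈ Good := by
    intro x y hx hxy
    exact Set.Finite.subset hx (Set.image_mono (Set.Ici_subset_Ici.2 hxy))
  -- finitely many types of good points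
  have h1 : (ty R c '' Good).Finite := by
    by_contra hinf
    have hinf' : (ty R c '' Good).Infinite := hinf
    let e := Set.Infinite.natEmbedding _ hinf'
    have hx : ∀ n, ∃ x ∈ Good, ty R c x = (e n : Quotient (bisimSetoid R c)) := fun n => (e n).2
    choose x hxG hxe using hx
    obtain ⟨g, hg⟩ := (wellQuasiOrdered_le (α := W)).exists_monotone_subseq x
    have hfin : (ty R c '' Set.Ici (x (g 0))).Finite := hxG (g 0)
    have hsub : Set.range (fun n => ty R c (x (g n))) ⊆ ty R c '' Set.Ici (x (g 0)) := by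
      rintro _ ⟨n, rfl⟩
      exact ⟨x (g n), hg 0 n (Nat.zero_le n), rfl⟩
    have hinj : Function.Injective (fun n => ty R c (x (g n))) := by
      intro m n hmn
      simp only [hxe] at hmn
      exact g.injective (e.injective (Subtype.ext hmn))
    exact Set.infinite_range_of_injective hinj (hfin.subset hsub)
  -- all points are good
  have h2 : ∀ x, x ∈ Good := by
    by_contra hbad
    push Not at hbad
    let c' : W → Quotient (bisimSetoid R c) ⊕ K := fun z =>
      if z ∈ Good then Sum.inl (ty R c z) else Sum.inr (c z)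
    let F : Set (Quotient (bisimSetoid R c) ⊕ K) := Sum.inl '' (ty R c '' Good) ∪ Set.range Sum.inr
    have hF : F.Finite := (h1.image _).union (Set.finite_range _)
    have hc'F : ∀ z, c' z ∈ F := by
      intro z
      show (if z ∈ Good then Sum.inl (ty R c z) else Sum.inr (c z)) ∈ F
      split_ifs with h
      · exact Or.inl ⟨_, ⟨z, h, rfl⟩, rfl⟩
      · exact Or.inr ⟨_, rfl⟩
    let V : W → Set (Quotient (bisimSetoid R c) ⊕ K) := fun x => c' '' {z | R x z}
    have hVfin : ∀ x, (V x).Finite := fun x => hF.subset (by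
      rintro _ ⟨z, -, rfl⟩
      exact hc'F z)
    obtain ⟨x, hxbad, hxmin⟩ : ∃ x, x ∉ Good ∧ ∀ y, y ∉ Good → (V x).ncard ≤ (V y).ncard := by
      obtain ⟨x, hx, hmin⟩ := WellFounded.has_min
        (InvImage.wf (fun x => (V x).ncard) Nat.lt_wfRel.wf) {x | x ∉ Good} hbad
      exact ⟨x, hx, fun y hy => not_lt.1 (hmin y hy)⟩
    have hV : ∀ y, y ∉ Good → x ≤ y → V y = V x := by
      intro y hy hxy
      apply Set.eq_of_subset_of_ncard_le _ (hxmin y hy) (hVfin x)
      rintro _ ⟨z, hz, rfl⟩
      exact ⟨z, ha x y z hxy hz, rfl⟩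
    -- on the points above `x`, the colouring `c'` is tuned
    have hbis : IsBisim R c (fun u v => x ≤ u ∧ x ≤ v ∧ c' u = c' v) := by
      refine ⟨fun u v h => ⟨h.2.1, h.1, h.2.2.symm⟩, ?_, ?_⟩
      · rintro u v ⟨-, -, h⟩
        change (if u ∈ Good then Sum.inl (ty R c u) else Sum.inr (c u)) =
          (if v ∈ Good then Sum.inl (ty R c v) else Sum.inr (c v)) at h
        split_ifs at h with h1 h2
        · exact ((ty_eq R c).1 (Sum.inl.inj h)).col
        · exact Sum.inr.inj h
      · rintro u v ⟨hu, hv, h⟩ u' hu'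
        change (if u ∈ Good then Sum.inl (ty R c u) else Sum.inr (c u)) =
          (if v ∈ Good then Sum.inl (ty R c v) else Sum.inr (c v)) at h
        split_ifs at h with h1 h2 h3
        · obtain ⟨v', hv', h3⟩ := ((ty_eq R c).1 (Sum.inl.inj h)).forth hu'
          refine ⟨v', hv', hu.trans (hb _ _ hu'), hv.trans (hb _ _ hv'), ?_⟩
          show (if u' ∈ Good then Sum.inl (ty R c u') else Sum.inr (c u')) =
            (if v' ∈ Good then Sum.inl (ty R c v') else Sum.inr (c v'))
          rw [if_pos (hup _ _ h1 (hb _ _ hu')), if_pos (hup _ _ h2 (hb _ _ hv')),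
            (ty_eq R c).2 h3]
        · have h4 : c' u' ∈ V v := by
            rw [hV v h3 hv, ← hV u h1 hu]
            exact ⟨u', hu', rfl⟩
          obtain ⟨v', hv', h5⟩ := h4
          exact ⟨v', hv', hu.trans (hb _ _ hu'), hv.trans (hb _ _ hv'), h5.symm⟩
    apply hxbad
    -- finitely many types above `x`
    let h : Quotient (bisimSetoid R c) ⊕ K → Quotient (bisimSetoid R c) := fun k =>
      if hk : ∃ u, x ≤ u ∧ c' u = k then ty R c (Classical.choose hk) else ty R c x
    show (ty R c '' Set.Ici x).Finite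
    apply (hF.image h).subset
    rintro _ ⟨u, hu, rfl⟩
    refine ⟨c' u, hc'F u, ?_⟩
    have hk : ∃ v, x ≤ v ∧ c' v = c' u := ⟨u, hu, rfl⟩
    show (if hk : ∃ v, x ≤ v ∧ c' v = c' u then ty R c (Classical.choose hk) else ty R c x) = _
    rw [dif_pos hk]
    exact (ty_eq R c).2 ⟨_, hbis, (Classical.choose_spec hk).1, hu, (Classical.choose_spec hk).2⟩
  have h3 : (Set.range (ty R c)).Finite := by
    have : Good = Set.univ := Set.eq_univ_of_forall h2
    rw [this, Set.image_univ] at h1
    exact h1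
  have h4 : Set.range (ty R c) = Set.univ := by
    apply Set.eq_univ_of_forall
    intro q
    obtain ⟨x, hx⟩ := Quotient.exists_rep q
    exact ⟨x, hx⟩
  rw [h4] at h3
  exact Set.finite_univ_iff.1 h3

/-! ### Consequences -/

/-- The hypothesis used below: finitely many bisimilarity types for each finite colouring. -/
def FinTypes (R : W → W → Prop) : Prop :=
  ∀ (K : Type u) [Finite K] (c : W → K), Finite (Quotient (bisimSetoid R c))

theorem locallyFinite_of_finTypes {R : W → W → Prop} (h : FinTypes R) : LocallyFiniteAlg R := by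
  classical
  intro G hG
  have : Finite G := hG
  let c : W → (G → Prop) := fun x X => x ∈ X.1
  have hfin := h (G → Prop) c
  -- the algebra of saturated sets
  let A : Set (Set W) := {X | ∀ x y, Bisimilar R c x y → x ∈ X → y ∈ X}
  have hA : IsSubalgebra R A := by
    refine ⟨fun _ _ _ h => h, ?_, ?_, ?_⟩
    · intro X hX x y hxy hx hy
      exact hx (hX _ _ hxy.symm hy)
    · rintro X hX Y hY x y hxy (hx | hx)
      · exact Or.inl (hX _ _ hxy hx)
      · exact Or.inr (hY _ _ hxy hx)
    · rintro X hX x y hxy ⟨v, hv, hxv⟩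
      obtain ⟨w, hw, hvw⟩ := hxy.forth hxv
      exact ⟨w, hX _ _ hvw hv, hw⟩
  have hGA : G ⊆ A := by
    intro X hX x y hxy hx
    have := congrFun hxy.col ⟨X, hX⟩
    change (x ∈ X) = (y ∈ X) at this
    rwa [this] at hx
  have hAfin : A.Finite := by
    have hsub : A ⊆ (fun S : Set (Quotient (bisimSetoid R c)) => ty R c ⁻¹' S) '' Set.univ := by
      intro X hX
      refine ⟨ty R c '' X, trivial, ?_⟩
      ext x
      constructor
      · rintro ⟨y, hy, hyx⟩
        exact hX _ _ ((ty_eq R c).1 hyx) hy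
      · intro hx
        exact ⟨x, hx, rfl⟩
    exact (Set.finite_univ.image _).subset hsub
  exact hAfin.subset (fun X hX => hX A ⟨hA, hGA⟩)

/-- All variables of `φ` are below `N`. -/
def Form.Below (N : ℕ) : Form → Prop
  | .var n => n < N
  | .bot => True
  | .imp φ ψ => φ.Below N ∧ ψ.Below N
  | .dia φ => φ.Below N

theorem Form.Below.mono {φ : Form} {M N : ℕ} (h : φ.Below M) (hMN : M ≤ N) : φ.Below N := by
  induction φ with
  | var n => exact lt_of_lt_of_le h hMN
  | bot => trivial
  | imp φ ψ ih1 ih2 => exact ⟨ih1 h.1, ih2 h.2⟩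
  | dia φ ih => exact ih h

theorem Form.exists_below (φ : Form) : ∃ N, φ.Below N := by
  induction φ with
  | var n => exact ⟨n + 1, Nat.lt_succ_self n⟩
  | bot => exact ⟨0, trivial⟩
  | imp φ ψ ih1 ih2 =>
    obtain ⟨M, hM⟩ := ih1
    obtain ⟨N, hN⟩ := ih2
    exact ⟨max M N, hM.mono (le_max_left _ _), hN.mono (le_max_right _ _)⟩
  | dia φ ih => exact ih

/-- Truth along a bounded morphism. -/
theorem truth_morphism {W' : Type*} {R : W → W → Prop} {R' : W' → W' → Prop} (f : W → W')
    (hforth : ∀ x y, R x y → R' (f x) (f y))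
    (hback : ∀ x b, R' (f x) b → ∃ y, R x y ∧ f y = b)
    (V : ℕ → Set W) (V' : ℕ → Set W') (φ : Form) (N : ℕ) (hN : φ.Below N)
    (hV : ∀ n < N, ∀ x, x ∈ V n ↔ f x ∈ V' n) (x : W) :
    x ∈ truth R V φ ↔ f x ∈ truth R' V' φ := by
  induction φ generalizing x with
  | var n => exact hV n hN x
  | bot => exact Iff.rfl
  | imp φ ψ ih1 ih2 =>
    show (x ∉ truth R V φ ∨ x ∈ truth R V ψ) ↔ (f x ∉ truth R' V' φ ∨ f x ∈ truth R' V' ψ)
    rw [ih1 hN.1, ih2 hN.2]
  | dia φ ih =>
    constructor
    · rintro ⟨y, hy, hxy⟩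
      exact ⟨f y, (ih hN y).1 hy, hforth _ _ hxy⟩
    · rintro ⟨b, hb, hxb⟩
      obtain ⟨y, hxy, rfl⟩ := hback x b hxb
      exact ⟨y, (ih hN y).2 hb, hxy⟩

theorem fmp_of_finTypes {R : W → W → Prop} (h : FinTypes R) : LogHasFMP R := by
  classical
  intro φ hφ
  unfold Valid at hφ
  push Not at hφ
  obtain ⟨V, hV⟩ := hφ
  rw [Set.ne_univ_iff_exists_notMem] at hV
  obtain ⟨w, hw⟩ := hV
  obtain ⟨N, hN⟩ := φ.exists_below
  let c : W → ULift.{u} (Fin N → Prop) := fun x => ⟨fun n => x ∈ V n⟩
  have hfin := h (ULift.{u} (Fin N → Prop)) c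
  obtain ⟨n, ⟨e⟩⟩ := Finite.exists_equiv_fin (Quotient (bisimSetoid R c))
  let f : W → Fin n := fun x => e (ty R c x)
  have hf : ∀ x y, f x = f y ↔ Bisimilar R c x y := by
    intro x y
    rw [← ty_eq R c]
    exact e.apply_eq_iff_eq
  have hsurj : Function.Surjective f := by
    intro b
    obtain ⟨x, hx⟩ := Quotient.exists_rep (e.symm b)
    refine ⟨x, ?_⟩
    show e (Quotient.mk _ x) = b
    rw [hx, e.apply_symm_apply]
  let R' : Fin n → Fin n → Prop := fun a b => ∃ x y, f x = a ∧ f y = b ∧ R x y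
  have hforth : ∀ x y, R x y → R' (f x) (f y) := fun x y hxy => ⟨x, y, rfl, rfl, hxy⟩
  have hback : ∀ x b, R' (f x) b → ∃ y, R x y ∧ f y = b := by
    rintro x b ⟨x', y', hx', rfl, hR⟩
    obtain ⟨y, hy, hyy⟩ := ((hf _ _).1 hx').forth hR
    exact ⟨y, hy, (hf _ _).2 hyy.symm⟩
  refine ⟨n, R', (f w).pos, ?_, ?_⟩
  · intro ψ hψ V'
    obtain ⟨M, hM⟩ := ψ.exists_below
    apply Set.eq_univ_of_forall
    intro b
    obtain ⟨x, rfl⟩ := hsurj b
    rw [← truth_morphism f hforth hback (fun n => f ⁻¹' V' n) V' ψ M hM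
      (fun _ _ _ => Iff.rfl) x, hψ]
    trivial
  · intro hval
    have h1 := truth_morphism f hforth hback V (fun n => f '' V n) φ N hN (by
      intro n hn x
      constructor
      · intro hx
        exact ⟨x, hx, rfl⟩
      · rintro ⟨y, hy, hyx⟩
        have h2 := congrArg ULift.down ((hf _ _).1 hyx).col
        have h3 := congrFun h2 ⟨n, hn⟩
        change (y ∈ V n) = (x ∈ V n) at h3
        rwa [h3] at hy) w
    rw [hval] at h1
    exact hw (h1.2 trivial)

/-- For all finite families of nonzero ordinals: the modal algebras of the direct products of the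
`(α i, ≤)` and of the `(α i, <)` are locally finite (Q1), and the logics of these products have
the finite model property (Q2). -/
theorem result (k : ℕ) (α : Fin k → Ordinal.{u}) :
    (LocallyFiniteAlg (prodLE α) ∧ LocallyFiniteAlg (prodLT α)) ∧
      (LogHasFMP (prodLE α) ∧ LogHasFMP (prodLT α)) := by
  have h1 : FinTypes (prodLE α) := fun K _ c => finite_types (prodLE α)
    (fun x y z hxy hyz i => (hxy i).trans (hyz i)) (fun x y h => h) c
  have h2 : FinTypes (prodLT α) := by
    intro K _ c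
    by_cases hk : k = 0
    · subst hk
      have : Finite ((i : Fin 0) → Set.Iio (α i)) := inferInstance
      exact Quotient.finite _
    · exact finite_types (prodLT α)
        (fun x y z hxy hyz i => (hxy i).trans_lt (hyz i)) (fun x y h i => (h i).le) c
  exact ⟨⟨locallyFinite_of_finTypes h1, locallyFinite_of_finTypes h2⟩,
    ⟨fmp_of_finTypes h1, fmp_of_finTypes h2⟩⟩

end Pool.Agent.Results.MP_d97c10_lc.OrdinalProducts
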